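import Pool.Agent.Helper30.DL.GoalsA

/-!
# MP_b4564f_an, packet EXTD: one step downwards
-/

set_option autoImplicit false

open Filter Topology Finset

namespace Pool.Agent.Helper19.DL

open Pool.Agent.Helper30.DL

/-- The product. -/
noncomputable def Qd (k : ℕ) (p B0 A : ℝ) : ℝ :=
  ∏ i ∈ range (k + 1), (1 - p + p * min B0 (A * (1 - p + p * B0) ^ i))

lemma extD_prod (k : ℕ) (p B0 m : ℝ) (hp : 0 < p) (hp1 : p < 1) (hB : 1 ≤ B0) (hm : 0 < m)
    (h : ∀ A, 1 ≤ A → A ≤ 1 - p + p * B0 → A ≤ B0 → m * Qd k p B0 A ≤ A) :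
    ∀ j : ℕ, ∀ A, 1 ≤ A → A ≤ B0 → A ≤ (1 - p + p * B0) ^ (j + 1) → m * Qd k p B0 A ≤ A := by
  set G := 1 - p + p * B0 with hG
  have hG1 : 1 ≤ G := by nlinarith
  intro j
  induction j with
  | zero =>
    intro A h1 h2 h3
    exact h A h1 (by simpa using h3) h2
  | succ j ih =>
    intro A h1 h2 h3
    by_cases hA : A ≤ G
    · exact h A h1 hA h2
    · push Not at hA
      have hG0 : 0 < G := by linarith
      have hA0 : 0 < A := by linarith
      have hq1 : 1 ≤ A / G := by rw [le_div_iff₀ hG0]; linarith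
      have hq2 : A / G ≤ B0 := le_trans (div_le_self hA0.le hG1) h2
      have hq3 : A / G ≤ G ^ (j + 1) := by
        rw [div_le_iff₀ hG0, ← pow_succ]; exact h3
      have hI := ih (A / G) hq1 hq2 hq3
      -- comparison of the products
      have hpos : ∀ x : ℝ, 1 ≤ x → 1 ≤ 1 - p + p * min B0 x := by
        intro x hx
        have : 1 ≤ min B0 x := le_min hB hx
        nlinarith
      have hGi : ∀ i : ℕ, 1 ≤ G ^ i := fun i => one_le_pow₀ hG1
      have hle : ∀ x : ℝ, 1 - p + p * min B0 x ≤ G := by
        intro x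
        have : min B0 x ≤ B0 := min_le_left _ _
        rw [hG]; nlinarith
      have e1 : Qd k p B0 A = (∏ i ∈ range k, (1 - p + p * min B0 (A * G ^ i))) *
          (1 - p + p * min B0 (A * G ^ k)) := by
        unfold Qd
        rw [prod_range_succ]
      have e2 : Qd k p B0 (A / G) = (∏ i ∈ range k, (1 - p + p * min B0 (A * G ^ i))) *
          (1 - p + p * min B0 (A / G)) := by
        unfold Qd
        rw [prod_range_succ', ← hG]
        congr 1
        · refine prod_congr rfl (fun i _ => ?_)
          congr 3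
          rw [pow_succ]; field_simp
        · simp
      set R := ∏ i ∈ range k, (1 - p + p * min B0 (A * G ^ i)) with hR
      have hRpos : 0 < R := by
        refine prod_pos (fun i _ => ?_)
        have := hpos (A * G ^ i) (by nlinarith [hGi i])
        linarith
      have s1 : Qd k p B0 A ≤ G * Qd k p B0 (A / G) := by
        rw [e1, e2]
        have a1 := hle (A * G ^ k)
        have a2 := hpos (A / G) hq1
        calc R * (1 - p + p * min B0 (A * G ^ k)) ≤ R * G :=
              mul_le_mul_of_nonneg_left a1 hRpos.le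
          _ = G * (R * 1) := by ring
          _ ≤ G * (R * (1 - p + p * min B0 (A / G))) :=
              mul_le_mul_of_nonneg_left (mul_le_mul_of_nonneg_left a2 hRpos.le) hG0.le
      calc m * Qd k p B0 A ≤ m * (G * Qd k p B0 (A / G)) :=
            mul_le_mul_of_nonneg_left s1 hm.le
        _ = G * (m * Qd k p B0 (A / G)) := by ring
        _ ≤ G * (A / G) := mul_le_mul_of_nonneg_left hI hG0.le
        _ = A := by field_simp

lemma extD_prod' (k : ℕ) (p B0 m : ℝ) (hp : 0 < p) (hp1 : p < 1) (hB : 1 ≤ B0) (hm : 0 < m)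
    (h : ∀ A, 1 ≤ A → A ≤ 1 - p + p * B0 → A ≤ B0 → m * Qd k p B0 A ≤ A) :
    ∀ A, 1 ≤ A → A ≤ B0 → m * Qd k p B0 A ≤ A := by
  intro A h1 h2
  by_cases hA : A ≤ 1 - p + p * B0
  · exact h A h1 hA h2
  · push Not at hA
    have hB1 : 1 < B0 := by
      by_contra hcon
      have : B0 = 1 := le_antisymm (by linarith) hB
      rw [this] at hA h2
      linarith
    have hG1 : 1 < 1 - p + p * B0 := by nlinarith
    obtain ⟨j, hj⟩ := pow_unbounded_of_one_lt A hG1
    refine extD_prod k p B0 m hp hp1 hB hm h j A h1 h2 (hj.le.trans ?_)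
    exact pow_le_pow_right₀ hG1.le (Nat.le_succ j)

/-- The claim: at a nonincreasing step the value is at least `m`. -/
lemma extD_claim (k : ℕ) (p : ℝ) (X : ℕ → ℝ) (hp : 0 < p) (hp1 : p < 1) (hX : SolX k p X)
    (B0 m : ℝ) (hB : 1 ≤ B0) (hm : 0 < m)
    (h : ∀ A, 1 ≤ A → A ≤ 1 - p + p * B0 → A ≤ B0 → m * Qd k p B0 A ≤ A)
    (N0 : ℕ) (hN : ∀ n, N0 ≤ n → X n ≤ B0) (n : ℕ) (hn : N0 + 2 * k ≤ n)
    (hd : X (n + k + 1) ≤ X (n + k)) : m ≤ X (n + k + 1) := by
  obtain ⟨hpos, hrec⟩ := hX
  have hG1 : 1 ≤ 1 - p + p * B0 := by nlinarith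
  have hG0 : 0 < 1 - p + p * B0 := by linarith
  have hfac : ∀ l, 0 < 1 - p + p * X l := by
    intro l
    have := mul_pos hp (hpos l)
    linarith
  -- A ≥ 1
  have hA1 : 1 ≤ X n := by
    have h1 := hrec n
    by_contra hcon
    push Not at hcon
    have h2 : 1 - p + p * X n < 1 := by nlinarith
    have h3 : X (n + k + 1) * (1 - p + p * X n) < X (n + k + 1) * 1 :=
      mul_lt_mul_of_pos_left h2 (hpos _)
    rw [h1] at h3
    linarith
  -- the recurrence iterated
  have hit : ∀ j, j ≤ n → X (n + k + 1) * ∏ i ∈ range (j + 1), (1 - p + p * X (n - i)) =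
      X (n + k - j) := by
    intro j
    induction j with
    | zero => intro _; simpa using hrec n
    | succ j ih =>
      intro hj
      rw [prod_range_succ, ← mul_assoc, ih (by omega)]
      have h1 := hrec (n - (j + 1))
      rw [show n - (j + 1) + k + 1 = n + k - j by omega,
        show n - (j + 1) + k = n + k - (j + 1) by omega] at h1
      exact h1
  -- growth backwards
  have hback : ∀ i, i ≤ k → X (n - i) ≤ X n * (1 - p + p * B0) ^ i := by
    intro i
    induction i with
    | zero => intro _; simp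
    | succ i ih =>
      intro hi
      have h1 := hrec (n - (i + 1) - k)
      rw [show n - (i + 1) - k + k + 1 = n - i by omega,
        show n - (i + 1) - k + k = n - (i + 1) by omega] at h1
      have h2 : X (n - (i + 1) - k) ≤ B0 := hN _ (by omega)
      have h3 : 1 - p + p * X (n - (i + 1) - k) ≤ 1 - p + p * B0 := by nlinarith
      calc X (n - (i + 1)) = X (n - i) * (1 - p + p * X (n - (i + 1) - k)) := h1.symm
        _ ≤ X (n - i) * (1 - p + p * B0) := mul_le_mul_of_nonneg_left h3 (hpos _).le
        _ ≤ (X n * (1 - p + p * B0) ^ i) * (1 - p + p * B0) :=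
            mul_le_mul_of_nonneg_right (ih (by omega)) hG0.le
        _ = X n * (1 - p + p * B0) ^ (i + 1) := by ring
  have hprod : ∏ i ∈ range (k + 1), (1 - p + p * X (n - i)) ≤ Qd k p B0 (X n) := by
    unfold Qd
    refine prod_le_prod (fun i _ => (hfac _).le) (fun i hi => ?_)
    have hi' : i ≤ k := by
      have := mem_range.1 hi
      omega
    have h1 : X (n - i) ≤ min B0 (X n * (1 - p + p * B0) ^ i) :=
      le_min (hN _ (by omega)) (hback i hi')
    nlinarith
  have hk := hit k (by omega)
  rw [show n + k - k = n by omega] at hk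
  have hQpos : 0 < Qd k p B0 (X n) := lt_of_lt_of_le (prod_pos (fun i _ => hfac _)) hprod
  have h1 := extD_prod' k p B0 m hp hp1 hB hm h (X n) hA1 (hN n (by omega))
  have h2 : X n ≤ X (n + k + 1) * Qd k p B0 (X n) := by
    rw [← hk]
    refine mul_le_mul_of_nonneg_left ?_ (hpos _).le
    rw [hk]
    exact hprod
  exact le_of_mul_le_mul_right (h1.trans h2) hQpos

theorem extD : ExtDStmt := by
  intro k p X hp hp1 hX B0 m hB hm hm1 h hev
  obtain ⟨N0, hN⟩ := eventually_atTop.1 hev
  have hcl := extD_claim k p X hp hp1 hX B0 m hB hm h N0 hN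
  obtain ⟨hpos, hrec⟩ := hX
  by_cases hcase : ∃ n, N0 + 2 * k ≤ n ∧ X (n + k + 1) ≤ X (n + k)
  · right
    obtain ⟨n, hn, hd⟩ := hcase
    rw [eventually_atTop]
    refine ⟨n + k + 1, fun l hl => ?_⟩
    induction l, hl using Nat.le_induction with
    | base => exact hcl n hn hd
    | succ l hl ih =>
      by_cases hs : X (l + 1) ≤ X l
      · have := hcl (l - k) (by omega) (by
          rw [show l - k + k + 1 = l + 1 by omega, show l - k + k = l by omega]; exact hs)
        rw [show l - k + k + 1 = l + 1 by omega] at this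
        exact this
      · push Not at hs
        linarith
  · left
    push Not at hcase
    set N := N0 + 3 * k with hNdef
    have hmono : Monotone (fun n => X (n + N)) := by
      refine monotone_nat_of_le_succ (fun n => ?_)
      have := hcase (n + N - k) (by omega)
      rw [show n + N - k + k + 1 = n + 1 + N by omega, show n + N - k + k = n + N by omega] at this
      exact this.le
    have hbdd : BddAbove (Set.range (fun n => X (n + N))) := by
      refine ⟨B0, ?_⟩
      rintro _ ⟨n, rfl⟩
      exact hN _ (by omega)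
    have ht := tendsto_atTop_ciSup hmono hbdd
    set L := ⨆ n, X (n + N) with hL
    have hLpos : 0 < L := lt_of_lt_of_le (hpos (0 + N)) (le_ciSup hbdd 0)
    have htX : Tendsto X atTop (𝓝 L) := (tendsto_add_atTop_iff_nat N).1 ht
    have ht1 : Tendsto (fun n => X (n + k + 1)) atTop (𝓝 L) := by
      have := (tendsto_add_atTop_iff_nat (k + 1)).2 htX
      simpa [add_assoc] using this
    have ht2 : Tendsto (fun n => X (n + k)) atTop (𝓝 L) := (tendsto_add_atTop_iff_nat k).2 htX
    have ht3 : Tendsto (fun n => X (n + k + 1) * (1 - p + p * X n)) atTop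
        (𝓝 (L * (1 - p + p * L))) :=
      ht1.mul (tendsto_const_nhds.add (htX.const_mul p))
    have he : (fun n => X (n + k + 1) * (1 - p + p * X n)) = fun n => X (n + k) := by
      funext n; exact hrec n
    rw [he] at ht3
    have heq := tendsto_nhds_unique ht3 ht2
    have hL1 : L = 1 := by
      have h1 : L * (p * (L - 1)) = 0 := by linear_combination heq
      rcases mul_eq_zero.1 h1 with h2 | h2
      · exact absurd h2 hLpos.ne'
      · rcases mul_eq_zero.1 h2 with h3 | h3
        · exact absurd h3 hp.ne'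
        · linarith
    rw [← hL1]
    exact htX

end Pool.Agent.Helper19.DL
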